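import Pool.Agent.Helper27.CsG

/-!
# Cantor-series distribution normality and continued-fraction normality

For every basic sequence `Q` the set `DN(Q)` of `Q`-distribution normal numbers differs from the set
`N_CF` of numbers normal with respect to the regular continued fraction expansion.

Idea. For `z ∈ (0,1)` and `w = 1/(1+z)` the Gauss map sends `w` to `z`, so `w ∈ N_CF` iff
`z ∈ N_CF`. Given `Q` we construct a random `z = ∑ ε_l c_l` with independent fair bits `ε_l`, in
such a way that `T_{Q,n}(z) < 1/16` for all `n` divisible by `8`, so `z ∉ DN(Q)`, while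
the exponential sums over `A_n / (1+z)` (with `A_n = q_1 ⋯ q_n`) almost surely satisfy Weyl's
criterion, so `1/(1+z) ∈ DN(Q)` almost surely. The latter follows from the exponential decay of
`E e(ξ/(1+z))` in `log ξ`, which comes from many pairs of bits at scales `x, y` with `ξ x y ≍ 1`.
-/

open MeasureTheory Filter Topology

namespace Pool.Agent.Results.MP_2274bf_nt.NoCantorSeriesForCF

/-- A basic sequence `q_1, q_2, …`; the term `q_{n+1}` of the problem is `Q n`. -/
def IsBasic (Q : ℕ → ℕ) : Prop := ∀ n, 2 ≤ Q n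

/-- `T_{Q,n}(x) = q_1 q_2 ⋯ q_n x (mod 1)`. -/
noncomputable def T (Q : ℕ → ℕ) (n : ℕ) (x : ℝ) : ℝ :=
  Int.fract (((∏ i ∈ Finset.range n, Q i : ℕ) : ℝ) * x)

/-- A sequence in `[0,1)` is uniformly distributed: for `0 ≤ a ≤ b ≤ 1` the proportion of `n < N`
with `a ≤ u n < b` tends to `b - a`. -/
def UniformlyDistributed (u : ℕ → ℝ) : Prop :=
  ∀ a b : ℝ, 0 ≤ a → a ≤ b → b ≤ 1 →
    Tendsto (fun N : ℕ => (((Finset.range N).filter (fun n => a ≤ u n ∧ u n < b)).card : ℝ) / N)
      atTop (𝓝 (b - a))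

/-- The set `DN(Q)` of `Q`-distribution normal real numbers. -/
def DN (Q : ℕ → ℕ) : Set ℝ := {x | UniformlyDistributed (fun n => T Q n x)}

/-- The Gauss map `y ↦ 1/y (mod 1)`. -/
noncomputable def gaussMap (y : ℝ) : ℝ := Int.fract (1 / y)

/-- The continued fraction digits: `cfDigit y n` is the partial quotient `a_{n+1}` of `y ∈ (0,1)`,
the integer part of `1 / G^n(y)`. -/
noncomputable def cfDigit (y : ℝ) (n : ℕ) : ℤ := ⌊1 / gaussMap^[n] y⌋

/-- The Gauss measure `μ(E) = (1/log 2) ∫_E dy/(1+y)`. -/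
noncomputable def gaussMeasure (E : Set ℝ) : ℝ := 1 / Real.log 2 * ∫ y in E, 1 / (1 + y)

/-- The set `I(c_1, …, c_k)` of `y ∈ (0,1)` whose continued fraction begins with `c_1, …, c_k`. -/
def cylinder {k : ℕ} (c : Fin k → ℕ) : Set ℝ :=
  {y | 0 < y ∧ y < 1 ∧ ∀ i : Fin k, cfDigit y i = c i}

/-- The set `N_CF` of numbers normal with respect to the regular continued fraction expansion. -/
def NCF : Set ℝ :=
  {x | Irrational (Int.fract x) ∧ ∀ k : ℕ, 1 ≤ k → ∀ c : Fin k → ℕ, (∀ i, 1 ≤ c i) →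
    Tendsto (fun N : ℕ => (((Finset.range N).filter
      (fun n => ∀ i : Fin k, cfDigit (Int.fract x) (n + i) = c i)).card : ℝ) / N) atTop
      (𝓝 (gaussMeasure (cylinder c)))}

open Pool.Agent.Helper27.Cs

lemma gauss_shift {z : ℝ} (h0 : 0 < z) (h1 : z < 1) (n : ℕ) :
    gaussMap^[n + 1] (1 / (1 + z)) = gaussMap^[n] z := by
  rw [Function.iterate_succ_apply]
  congr 1
  unfold gaussMap
  rw [one_div_one_div, add_comm, Int.fract_add_one, Int.fract_eq_self]
  exact ⟨h0.le, h1⟩

lemma digit_shift {z : ℝ} (h0 : 0 < z) (h1 : z < 1) (n : ℕ) :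
    cfDigit (1 / (1 + z)) (n + 1) = cfDigit z n := by
  unfold cfDigit
  rw [gauss_shift h0 h1]

lemma count_shift (p p' : ℕ → Prop) [DecidablePred p] [DecidablePred p']
    (h : ∀ n, p (n + 1) ↔ p' n) (N : ℕ) :
    (((Finset.range (N + 1)).filter p).card : ℝ) =
      (((Finset.range N).filter p').card : ℝ) + if p 0 then 1 else 0 := by
  rw [Finset.card_filter, Finset.card_filter, Finset.sum_range_succ']
  push_cast
  congr 1
  refine Finset.sum_congr rfl fun n _ => ?_
  simp only [h n]

lemma ncf_of_ncf {z : ℝ} (h0 : 0 < z) (h1 : z < 1) (h : 1 / (1 + z) ∈ NCF) : z ∈ NCF := by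
  have hw : Int.fract (1 / (1 + z)) = 1 / (1 + z) := by
    rw [Int.fract_eq_self]
    constructor
    · positivity
    · rw [div_lt_one (by linarith)]; linarith
  have hz : Int.fract z = z := Int.fract_eq_self.2 ⟨h0.le, h1⟩
  obtain ⟨hirr, hfreq⟩ := h
  rw [hw] at hirr hfreq
  refine ⟨?_, ?_⟩
  · rw [hz]
    rintro ⟨r, hr⟩
    apply hirr
    refine ⟨1 / (1 + r), ?_⟩
    rw [← hr]; push_cast; rfl
  · intro k hk c hc
    rw [hz]
    have h2 := hfreq k hk c hc
    rw [← tendsto_add_atTop_iff_nat 1] at h2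
    -- multiply by (N+1)/N and subtract
    have h3 : Tendsto (fun N : ℕ => ((N : ℝ) + 1) / N) atTop (𝓝 1) := by
      have h4 : Tendsto (fun N : ℕ => 1 + 1 / (N : ℝ)) atTop (𝓝 (1 + 0)) :=
        tendsto_const_nhds.add tendsto_one_div_atTop_nhds_zero_nat
      rw [add_zero] at h4
      refine h4.congr' ?_
      filter_upwards [eventually_ge_atTop 1] with N hN
      have : (N : ℝ) ≠ 0 := by
        have : N ≠ 0 := by omega
        exact_mod_cast this
      field_simp
    set δ : ℝ := if (∀ i : Fin k, cfDigit (1 / (1 + z)) (0 + i) = c i) then 1 else 0 with hδ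
    have h5 : Tendsto (fun N : ℕ => δ / (N : ℝ)) atTop (𝓝 0) :=
      tendsto_const_nhds.div_atTop tendsto_natCast_atTop_atTop
    have h6 := (h2.mul h3).sub h5
    rw [mul_one, sub_zero] at h6
    refine h6.congr' ?_
    filter_upwards [eventually_ge_atTop 1] with N hN
    have hN0 : (N : ℝ) ≠ 0 := by
      have : N ≠ 0 := by omega
      exact_mod_cast this
    have hN1 : ((N : ℝ) + 1) ≠ 0 := by positivity
    have h9 : (((Finset.range (N + 1)).filter
        (fun n => ∀ i : Fin k, cfDigit (1 / (1 + z)) (n + i) = c i)).card : ℝ) =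
        (((Finset.range N).filter (fun n => ∀ i : Fin k, cfDigit z (n + i) = c i)).card : ℝ) + δ := by
      rw [hδ]
      apply count_shift
      intro n
      refine forall_congr' fun i => ?_
      rw [show n + 1 + (i : ℕ) = (n + i) + 1 by ring, digit_shift h0 h1]
    rw [h9]
    push_cast
    field_simp
    ring

/-- For every basic sequence `Q` there is `z ∈ (0,1)` which is not `Q`-distribution normal although
`1/(1+z)` is. -/
theorem exists_pair {Q : ℕ → ℕ} (hQ : IsBasic Q) :
    ∃ z : ℝ, 0 < z ∧ z < 1 ∧ z ∉ DN Q ∧ 1 / (1 + z) ∈ DN Q := by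
  obtain ⟨ε, hε⟩ := exists_point hQ
  have hw : 1 / (1 + zz Q ε) ∈ DN Q := by
    intro a b ha hab hb
    exact hε a b ha hab hb
  have hz0 : 0 ≤ zz Q ε := zz_nonneg ε
  have hz1 : zz Q ε ≤ 1 / 2 := zz_le ε
  have hzne : zz Q ε ≠ 0 := by
    intro h
    rw [h] at hw
    have h1 := hw (1 / 2) 1 (by norm_num) (by norm_num) le_rfl
    have h2 : (fun N : ℕ => (((Finset.range N).filter
        (fun n => (1 : ℝ) / 2 ≤ T Q n (1 / (1 + 0)) ∧ T Q n (1 / (1 + 0)) < 1)).card : ℝ) / N) =
        fun _ => 0 := by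
      ext N
      have : (Finset.range N).filter
          (fun n => (1 : ℝ) / 2 ≤ T Q n (1 / (1 + 0)) ∧ T Q n (1 / (1 + 0)) < 1) = ∅ := by
        apply Finset.filter_eq_empty_iff.2
        intro n _ hn
        have : T Q n (1 / (1 + 0)) = 0 := by
          unfold T
          rw [add_zero, div_one, mul_one, Int.fract_natCast]
        rw [this] at hn
        norm_num at hn
      rw [this]; simp
    rw [h2] at h1
    have := tendsto_nhds_unique h1 tendsto_const_nhds
    norm_num at this
  refine ⟨zz Q ε, lt_of_le_of_ne hz0 (Ne.symm hzne), by linarith, ?_, hw⟩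
  intro hdn
  have h1 := hdn 0 (1 / 16) le_rfl (by norm_num) (by norm_num)
  have hsub : Tendsto (fun M : ℕ => 8 * (M + 1)) atTop atTop := by
    rw [tendsto_atTop_atTop]
    intro b
    exact ⟨b, fun n hn => by omega⟩
  have h2 := h1.comp hsub
  have h3 : ∀ M : ℕ, (1 : ℝ) / 8 ≤ ((((Finset.range (8 * (M + 1))).filter
      (fun n => 0 ≤ T Q n (zz Q ε) ∧ T Q n (zz Q ε) < 1 / 16)).card : ℝ)) /
        ((8 * (M + 1) : ℕ) : ℝ) := by
    intro M
    have h4 : M + 1 ≤ ((Finset.range (8 * (M + 1))).filter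
      (fun n => 0 ≤ T Q n (zz Q ε) ∧ T Q n (zz Q ε) < 1 / 16)).card := by
      have h5 : (Finset.image (fun m => 8 * m) (Finset.range (M + 1))) ⊆
          (Finset.range (8 * (M + 1))).filter
            (fun n => 0 ≤ T Q n (zz Q ε) ∧ T Q n (zz Q ε) < 1 / 16) := by
        intro n hn
        rw [Finset.mem_image] at hn
        obtain ⟨m, hm, rfl⟩ := hn
        rw [Finset.mem_range] at hm
        rw [Finset.mem_filter, Finset.mem_range]
        exact ⟨by omega, Int.fract_nonneg _, fract_lt hQ ε m⟩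
      have h6 := Finset.card_le_card h5
      rw [Finset.card_image_of_injective _ (fun a b h => by simpa using h),
        Finset.card_range] at h6
      exact h6
    rw [le_div_iff₀ (by positivity)]
    have h7 : ((M + 1 : ℕ) : ℝ) ≤ (((Finset.range (8 * (M + 1))).filter
      (fun n => 0 ≤ T Q n (zz Q ε) ∧ T Q n (zz Q ε) < 1 / 16)).card : ℝ) := by exact_mod_cast h4
    push_cast at h7 ⊢
    linarith
  have h4 := ge_of_tendsto' h2 h3
  norm_num at h4

/-- For every basic sequence `Q`, the set of `Q`-distribution normal numbers is different from the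
set of numbers normal with respect to the regular continued fraction expansion. -/
theorem result :
    (∀ Q : ℕ → ℕ, IsBasic Q → DN Q ≠ NCF) ∧
    (∀ Q : ℕ → ℕ, IsBasic Q → ∃ z : ℝ, 0 < z ∧ z < 1 ∧ z ∉ DN Q ∧ 1 / (1 + z) ∈ DN Q) := by
  refine ⟨fun Q hQ h => ?_, fun Q hQ => exists_pair hQ⟩
  obtain ⟨z, h0, h1, h2, h3⟩ := exists_pair hQ
  rw [h] at h2 h3
  exact h2 (ncf_of_ncf h0 h1 h3)

end Pool.Agent.Results.MP_2274bf_nt.NoCantorSeriesForCF
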